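import Pool.Agent.MP_151d89_pr.H30W.Basic

/-!
Deterministic facts on labels: monotonicity, alternation of valleys and peaks on a line.
-/

set_option autoImplicit false

namespace Pool.Agent.MP_151d89_pr.H60
open Pool.Agent.MP_151d89_pr.H82 Pool.Agent.MP_151d89_pr.H33 Pool.Agent.MP_151d89_pr.H67
open Pool.Agent.MP_151d89_pr.H30 Pool.Agent.MP_151d89_pr.H30W
open Classical

variable {c : Conf → ℤ} {f : Conf}

theorem addE (x y : ℤ) : ((x, y) : ℤ × ℤ) + dir true = (x + 1, y) := by simp [dir]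

theorem addN (x y : ℤ) : ((x, y) : ℤ × ℤ) + dir false = (x, y + 1) := by simp [dir]

theorem loE (hf : Hom f) (x y : ℤ) :
    Lo true (x, y) f ↔ lab c f (x + 1, y) = lab c f (x, y) + 1 := by
  rw [← addE]
  refine ⟨lab_lo, fun h => by_contra fun h' => ?_⟩
  have := lab_nlo (c := c) hf h'
  omega

theorem loN (hf : Hom f) (x y : ℤ) :
    Lo false (x, y) f ↔ lab c f (x, y + 1) = lab c f (x, y) + 1 := by
  rw [← addN]
  refine ⟨lab_lo, fun h => by_contra fun h' => ?_⟩
  have := lab_nlo (c := c) hf h'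
  omega

theorem hiW (hf : Hom f) (x y : ℤ) :
    Hi true (x, y) f ↔ lab c f (x, y) = lab c f (x - 1, y) + 1 := by
  have h := hi_add true (x - 1, y) f
  rw [addE, sub_add_cancel] at h
  rw [h, loE (c := c) hf, sub_add_cancel]

theorem hiS (hf : Hom f) (x y : ℤ) :
    Hi false (x, y) f ↔ lab c f (x, y) = lab c f (x, y - 1) + 1 := by
  have h := hi_add false (x, y - 1) f
  rw [addN, sub_add_cancel] at h
  rw [h, loN (c := c) hf, sub_add_cancel]

theorem stepE (hf : Hom f) (x y : ℤ) :
    lab c f (x, y) ≤ lab c f (x + 1, y) ∧ lab c f (x + 1, y) ≤ lab c f (x, y) + 1 := by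
  rw [← addE]
  by_cases h : Lo true (x, y) f
  · have := lab_lo (c := c) h
    omega
  · have := lab_nlo (c := c) hf h
    omega

theorem stepN (hf : Hom f) (x y : ℤ) :
    lab c f (x, y) ≤ lab c f (x, y + 1) ∧ lab c f (x, y + 1) ≤ lab c f (x, y) + 1 := by
  rw [← addN]
  by_cases h : Lo false (x, y) f
  · have := lab_lo (c := c) h
    omega
  · have := lab_nlo (c := c) hf h
    omega

theorem rowE (hf : Hom f) (x y : ℤ) (n : ℕ) :
    lab c f (x, y) ≤ lab c f (x + n, y) ∧ lab c f (x + n, y) ≤ lab c f (x, y) + n := by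
  induction n with
  | zero => simp
  | succ n ih =>
    have := stepE (c := c) hf (x + n) y
    push_cast
    rw [← add_assoc]
    omega

theorem colN (hf : Hom f) (x y : ℤ) (n : ℕ) :
    lab c f (x, y) ≤ lab c f (x, y + n) ∧ lab c f (x, y + n) ≤ lab c f (x, y) + n := by
  induction n with
  | zero => simp
  | succ n ih =>
    have := stepN (c := c) hf x (y + n)
    push_cast
    rw [← add_assoc]
    omega

/-- labels are monotone and one-Lipschitz towards north east -/
theorem lab_mono (hf : Hom f) {x y x' y' : ℤ} (hx : x ≤ x') (hy : y ≤ y') :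
    lab c f (x, y) ≤ lab c f (x', y') ∧
      lab c f (x', y') ≤ lab c f (x, y) + (x' - x) + (y' - y) := by
  obtain ⟨n, rfl⟩ := Int.le.dest hx
  obtain ⟨m, rfl⟩ := Int.le.dest hy
  have h1 := rowE (c := c) hf x y n
  have h2 := colN (c := c) hf (x + n) y m
  omega

theorem lab_le (hf : Hom f) {z w : ℤ × ℤ} (hx : z.1 ≤ w.1) (hy : z.2 ≤ w.2) :
    lab c f z ≤ lab c f w := (lab_mono (c := c) hf hx hy).1

/-- a valley is followed by a peak in the row below, before any site of that row with label l -/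
theorem next_peak (hf : Hom f) {x y X : ℤ} (hv : Val (x, y) f)
    (hX : lab c f (x, y) ≤ lab c f (X, y - 1)) :
    ∃ s, x ≤ s ∧ s < X ∧ Pk (s, y - 1) f ∧ lab c f (s, y - 1) + 1 = lab c f (x, y) := by
  have h2 := (hiS (c := c) hf x y).1 hv.2
  have hx : x < X := by
    by_contra hc
    have := (lab_mono (c := c) hf (not_lt.1 hc) (le_refl (y - 1))).1
    omega
  have hex : ∃ n : ℕ, lab c f (x, y) ≤ lab c f (x + n + 1, y - 1) :=
    ⟨(X - x - 1).toNat, by
      rw [Int.toNat_of_nonneg (by omega)]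
      have : x + (X - x - 1) + 1 = X := by ring
      rw [this]
      exact hX⟩
  have hn := Nat.find_spec hex
  have hle : Nat.find hex ≤ (X - x - 1).toNat := Nat.find_min' hex (by
    rw [Int.toNat_of_nonneg (by omega)]
    have : x + (X - x - 1) + 1 = X := by ring
    rw [this]
    exact hX)
  have hlow : lab c f (x + Nat.find hex, y - 1) < lab c f (x, y) := by
    rcases Nat.eq_zero_or_pos (Nat.find hex) with h0 | h0
    · rw [h0]
      simp only [Nat.cast_zero, add_zero]
      omega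
    · have := Nat.find_min hex (m := Nat.find hex - 1) (by omega)
      have e : x + ((Nat.find hex - 1 : ℕ) : ℤ) + 1 = x + Nat.find hex := by omega
      rw [e] at this
      omega
  have s1 := stepE (c := c) hf (x + Nat.find hex) (y - 1)
  have s2 := stepN (c := c) hf (x + Nat.find hex) (y - 1)
  have s3 := (rowE (c := c) hf x y (Nat.find hex)).1
  rw [sub_add_cancel] at s2
  refine ⟨x + Nat.find hex, by omega, by omega, ⟨(loE (c := c) hf _ _).2 (by omega), ?_⟩, by omega⟩
  rw [loN (c := c) hf, sub_add_cancel]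
  omega

theorem val_row (hf : Hom f) {x x' y : ℤ} (h : Val (x, y) f) (h' : Val (x', y) f)
    (e : lab c f (x, y) = lab c f (x', y)) : x = x' := by
  have a := (hiW (c := c) hf x y).1 h.1
  have b := (hiW (c := c) hf x' y).1 h'.1
  by_contra hc
  rcases lt_or_gt_of_ne hc with h1 | h1
  · have := (lab_mono (c := c) hf (show x ≤ x' - 1 by omega) (le_refl y)).1
    omega
  · have := (lab_mono (c := c) hf (show x' ≤ x - 1 by omega) (le_refl y)).1
    omega

theorem val_col (hf : Hom f) {x y y' : ℤ} (h : Val (x, y) f) (h' : Val (x, y') f)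
    (e : lab c f (x, y) = lab c f (x, y')) : y = y' := by
  have a := (hiS (c := c) hf x y).1 h.2
  have b := (hiS (c := c) hf x y').1 h'.2
  by_contra hc
  rcases lt_or_gt_of_ne hc with h1 | h1
  · have := (lab_mono (c := c) hf (le_refl x) (show y ≤ y' - 1 by omega)).1
    omega
  · have := (lab_mono (c := c) hf (le_refl x) (show y' ≤ y - 1 by omega)).1
    omega

/-- counting form: valleys with a peak of R in the row below are at most the peaks of R -/
theorem card_val_le (hf : Hom f) (l : ℤ) (A R : Finset (ℤ × ℤ))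
    (hA : ∀ v ∈ A, Val v f ∧ lab c f v = l ∧
      ∃ s, (s, v.2 - 1) ∈ R ∧ Pk (s, v.2 - 1) f ∧ lab c f (s, v.2 - 1) + 1 = l) :
    A.card ≤ (R.filter fun z => Pk z f ∧ lab c f z + 1 = l).card := by
  choose! s hs using fun v hv => (hA v hv).2.2
  refine Finset.card_le_card_of_injOn (fun v => (s v, v.2 - 1)) (fun v hv => ?_) ?_
  · exact Finset.mem_coe.2 (Finset.mem_filter.2 (hs v hv))
  · rintro ⟨x, y⟩ hv ⟨x', y'⟩ hw e
    have e2 : y = y' := by
      have := congrArg Prod.snd e
      simp only at this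
      omega
    subst e2
    rw [val_row (c := c) hf (hA _ hv).1 (hA _ hw).1 ((hA _ hv).2.1.trans (hA _ hw).2.1.symm)]

theorem sum_ind (R : Finset (ℤ × ℤ)) (p : ℤ × ℤ → Prop) [DecidablePred p] :
    ∑ z ∈ R, ind (p z) = ((R.filter p).card : ℝ) := by
  rw [← Finset.sum_boole]
  exact Finset.sum_congr rfl fun z _ => by unfold ind; congr

/-- alternation on a set that is convex for the south east order -/
theorem alt (hf : Hom f) (l : ℤ) (R : Finset (ℤ × ℤ))
    (hR : ∀ v ∈ R, ∀ w ∈ R, ∀ z : ℤ × ℤ, v.1 ≤ z.1 → z.1 ≤ w.1 → w.2 ≤ z.2 → z.2 ≤ v.2 → z ∈ R) :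
    ∑ z ∈ R, (ind (Val z f ∧ lab c f z = l) - ind (Pk z f ∧ lab c f z + 1 = l)) ≤ 1 := by
  rw [Finset.sum_sub_distrib, sum_ind, sum_ind]
  set A := R.filter fun z => Val z f ∧ lab c f z = l with hAd
  rcases A.eq_empty_or_nonempty with h0 | h0
  · rw [h0]
    have : (0 : ℝ) ≤ ((R.filter fun z => Pk z f ∧ lab c f z + 1 = l).card : ℝ) := Nat.cast_nonneg _
    simp only [Finset.card_empty, Nat.cast_zero]
    linarith
  obtain ⟨w, hw, hmin⟩ := A.exists_min_image (fun z => z.2) h0
  have hw' := Finset.mem_filter.1 hw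
  have key := card_val_le (c := c) hf l (A.erase w) R (fun v hv => by
    have hv1 := Finset.mem_erase.1 hv
    have hv' := Finset.mem_filter.1 hv1.2
    have hlt : w.2 < v.2 := by
      refine lt_of_le_of_ne (hmin v hv1.2) fun e => hv1.1 ?_
      obtain ⟨x, y⟩ := v
      obtain ⟨x', y'⟩ := w
      simp only at e
      subst e
      rw [val_row (c := c) hf hv'.2.1 hw'.2.1 (hv'.2.2.trans hw'.2.2.symm)]
    have hX : lab c f (v.1, v.2) ≤ lab c f (w.1, v.2 - 1) := by
      have := lab_le (c := c) hf (z := w) (w := (w.1, v.2 - 1)) le_rfl (by simp only; omega)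
      have e1 : lab c f (v.1, v.2) = l := hv'.2.2
      have e2 := hw'.2.2
      omega
    obtain ⟨s, h1, h2, h3, h4⟩ := next_peak (c := c) hf (x := v.1) (y := v.2) hv'.2.1 hX
    exact ⟨hv'.2.1, hv'.2.2, s, hR v hv'.1 w hw'.1 _ h1 h2.le (by simp only; omega)
      (by simp only; omega), h3, h4.trans hv'.2.2⟩)
  have hc := Finset.card_erase_add_one hw
  have : (A.card : ℝ) ≤ ((R.filter fun z => Pk z f ∧ lab c f z + 1 = l).card : ℝ) + 1 := by
    exact_mod_cast (by omega)
  linarith

/-- alternation in a rectangle whose south east corner has label at least l -/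
theorem alt0 (hf : Hom f) (l : ℤ) (p q : ℤ × ℤ) (hl : l ≤ lab c f (q.1, p.2)) :
    ∑ z ∈ Finset.Icc p q, (ind (Val z f ∧ lab c f z = l) - ind (Pk z f ∧ lab c f z + 1 = l)) ≤
      ∑ z ∈ Finset.Icc p q, ind (z.2 = p.2 ∧ Val z f ∧ lab c f z = l) := by
  rw [Finset.sum_sub_distrib, sum_ind, sum_ind, sum_ind]
  have key := card_val_le (c := c) hf l
    ((Finset.Icc p q).filter fun z => ¬ z.2 = p.2 ∧ Val z f ∧ lab c f z = l) (Finset.Icc p q)
    (fun v hv => by
      have hv' := Finset.mem_filter.1 hv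
      have hb := Finset.mem_Icc.1 hv'.1
      have b1 : p.1 ≤ v.1 := hb.1.1
      have b2 : p.2 ≤ v.2 := hb.1.2
      have b4 : v.2 ≤ q.2 := hb.2.2
      have b5 := hv'.2.1
      have hX : lab c f (v.1, v.2) ≤ lab c f (q.1, v.2 - 1) := by
        have := (lab_mono (c := c) hf (le_refl q.1) (show p.2 ≤ v.2 - 1 by omega)).1
        have e1 : lab c f (v.1, v.2) = l := hv'.2.2.2
        omega
      obtain ⟨s, h1, h2, h3, h4⟩ := next_peak (c := c) hf (x := v.1) (y := v.2) hv'.2.2.1 hX
      refine ⟨hv'.2.2.1, hv'.2.2.2, s, Finset.mem_Icc.2 ⟨⟨?_, ?_⟩, ⟨?_, ?_⟩⟩, h3,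
        h4.trans hv'.2.2.2⟩ <;> simp only <;> omega)
  have hs := Finset.card_filter_add_card_filter_not (s := (Finset.Icc p q).filter fun z =>
    Val z f ∧ lab c f z = l) (fun z => z.2 = p.2)
  rw [Finset.filter_filter, Finset.filter_filter] at hs
  have e1 : ((Finset.Icc p q).filter fun z => (Val z f ∧ lab c f z = l) ∧ z.2 = p.2) =
      (Finset.Icc p q).filter fun z => z.2 = p.2 ∧ Val z f ∧ lab c f z = l :=
    Finset.filter_congr fun z _ => and_comm
  have e2 : ((Finset.Icc p q).filter fun z => (Val z f ∧ lab c f z = l) ∧ ¬ z.2 = p.2) =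
      (Finset.Icc p q).filter fun z => ¬ z.2 = p.2 ∧ Val z f ∧ lab c f z = l :=
    Finset.filter_congr fun z _ => and_comm
  rw [e1, e2] at hs
  have : (((Finset.Icc p q).filter fun z => Val z f ∧ lab c f z = l).card : ℝ) ≤
      (((Finset.Icc p q).filter fun z => z.2 = p.2 ∧ Val z f ∧ lab c f z = l).card : ℝ) +
      (((Finset.Icc p q).filter fun z => Pk z f ∧ lab c f z + 1 = l).card : ℝ) := by
    exact_mod_cast (by omega)
  linarith

end Pool.Agent.MP_151d89_pr.H60
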