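import Pool.Agent.MP_151d89_pr.H30W.Basic

/-!
The stream function of the point mirror of a measure.
-/

set_option autoImplicit false
open MeasureTheory

namespace Pool.Agent.MP_151d89_pr.H60
open Pool.Agent.MP_151d89_pr.H82 Pool.Agent.MP_151d89_pr.H33 Pool.Agent.MP_151d89_pr.H67
open Pool.Agent.MP_151d89_pr.H30 Pool.Agent.MP_151d89_pr.H30W
open Classical

/-- the point mirror together with a change of sign -/
def pm : Conf → Conf := FinalAux.T (Equiv.neg (ℤ × ℤ)) (-1) 0

namespace MirP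

theorem pm_apply (f : Conf) (x : ℤ × ℤ) : pm f x = -f (-x) := by simp [pm, FinalAux.T]

theorem mpm : Measurable pm := FinalAux.meas_T _ _ _

theorem iso_neg : FinalAux.Iso (Equiv.neg (ℤ × ℤ)) := fun x y => by
  simp only [Equiv.neg_apply, Prod.fst_neg, Prod.snd_neg]
  rw [← abs_neg (-x.1 - -y.1), ← abs_neg (-x.2 - -y.2)]
  congr 2 <;> ring

theorem gibbs_pm {μ : Measure Conf} (hμ : Gibbs μ) : Gibbs (μ.map pm) :=
  FinalAux.gibbs_T hμ iso_neg (by norm_num) 0

theorem neg_pt (b : Bool) (x : ℤ × ℤ) (t : ℤ) : -pt b x t = pt b (-x) (-t) := by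
  simp only [pt, neg_smul]
  abel

theorem nodesc_pm {μ : Measure Conf} (h : NoDesc μ) : NoDesc (μ.map pm) := by
  unfold NoDesc pm
  rw [FinalAux.ae_T μ _ (by norm_num)]
  filter_upwards [h] with f hf b x
  obtain ⟨⟨l, h1⟩, l', h2⟩ := hf b (-x)
  refine ⟨⟨l', ?_⟩, l, ?_⟩
  · change pm f _ ≠ pm f _ - _
    rw [pm_apply, pm_apply, neg_pt]
    omega
  · change pm f _ ≠ pm f _ + _
    rw [pm_apply, pm_apply, neg_pt, neg_neg]
    omega

theorem back (b : Bool) (v : ℤ × ℤ) (a : ℕ) :
    pt b v (-((a + 1 : ℕ) : ℤ)) + dir b = pt b v (-(a : ℤ)) := by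
  simp only [pt]
  push_cast
  simp only [neg_add_rev, add_smul, neg_smul, one_smul]
  abel

theorem leg_down {f : Conf} (hf : Hom f) (b : Bool) (v : ℤ × ℤ) (s a : ℕ)
    (h : Leg b (pt b v (-(a : ℤ))) (a + s) f) : Leg b v s f := by
  induction a with
  | zero => simpa [pt_zero] using h
  | succ a ih =>
    refine ih ?_
    have e : a + 1 + s = a + s + 1 := by ring
    rw [e, leg_succ hf, back] at h
    exact h.1

theorem leg_iff {f : Conf} (hf : Hom f) (b : Bool) (v : ℤ × ℤ) (s : ℕ)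
    (hn : ∃ l : ℕ, f (pt b v (-(l : ℤ))) ≠ f v + (l : ℤ)) :
    Leg b v s f ↔ ∃ a : ℕ, TD b (pt b v (-(a : ℤ))) (a + s) f := by
  refine ⟨fun h => by_contra fun hc => ?_, fun ⟨a, h⟩ => leg_down hf b v s a h.1⟩
  have all : ∀ a : ℕ, Leg b (pt b v (-(a : ℤ))) (a + s) f := fun a => by
    induction a with
    | zero => simpa [pt_zero] using h
    | succ a ih =>
      have e : a + 1 + s = a + s + 1 := by ring
      rw [e, leg_succ hf, back]
      exact ⟨ih, (hi_or hf b _).resolve_right fun h' => hc ⟨a, ih, h'⟩⟩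
  obtain ⟨l, hl⟩ := hn
  have := (all l).1 l (by omega)
  rw [NullP.pt_pt, neg_add_cancel, pt_zero] at this
  omega

theorem td_lt {f : Conf} (hf : Hom f) (b : Bool) (v : ℤ × ℤ) (s : ℕ) {a a' : ℕ} (h : a < a')
    (h1 : TD b (pt b v (-(a : ℤ))) (a + s) f) (h2 : TD b (pt b v (-(a' : ℤ))) (a' + s) f) :
    False := by
  obtain ⟨k, rfl⟩ := Nat.exists_eq_add_of_lt h
  have h3 : Leg b (pt b (pt b v (-((a + 1 : ℕ) : ℤ))) (-(k : ℤ))) (k + (a + s + 1)) f := by
    rw [NullP.pt_pt]
    have e1 : -((a + 1 : ℕ) : ℤ) + -(k : ℤ) = -((a + k + 1 : ℕ) : ℤ) := by push_cast; ring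
    have e2 : k + (a + s + 1) = a + k + 1 + s := by ring
    rw [e1, e2]
    exact h2.1
  have h4 := ((leg_succ hf).1 (leg_down hf b _ _ k h3)).2
  rw [back] at h4
  have h5 := h1.2
  unfold Hi at h4
  omega

theorem leg_meas {μ : Measure Conf} (hμ : Gibbs μ) (hn : NoDesc μ) (b : Bool) (v : ℤ × ℤ) (t : ℕ) :
    μ {f | Leg b (v + dir b) t f ∧ Hi b (v + dir b) f} =
      ∑' a : ℕ, μ {f | TD b (pt b v (-(a : ℤ))) (a + (t + 1)) f} := by
  rw [← measure_iUnion₀ (fun a a' haa => ?_) fun a => (mset (mTD _ _ _)).nullMeasurableSet]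
  · refine measure_congr ?_
    filter_upwards [hμ.2.1, hn] with f hf h
    have := leg_iff hf b v (t + 1) (h b v).2
    rw [leg_succ hf] at this
    refine propext (this.trans ?_)
    exact (Set.mem_iUnion (x := f)
      (s := fun a : ℕ => {f | TD b (pt b v (-(a : ℤ))) (a + (t + 1)) f})).symm
  · refine measure_mono_null (t := {f | ¬ Hom f}) (fun f hf hh => ?_) (ae_iff.1 hμ.2.1)
    rcases lt_or_gt_of_ne haa with h | h
    · exact td_lt hh b v _ h hf.1 hf.2
    · exact td_lt hh b v _ h hf.2 hf.1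

theorem td_pm (b : Bool) (z : ℤ × ℤ) (t : ℕ) (f : Conf) (h : TD b z t (pm f)) :
    TU b (-pt b z t) t f := by
  obtain ⟨⟨h1, h2⟩, h3⟩ := h
  simp only [pm_apply] at h1 h2 h3
  have e : ∀ j : ℕ, j ≤ t → pt b (-pt b z t) j = -pt b z ((t - j : ℕ) : ℤ) := fun j hj => by
    rw [NullP.pt_neg, Nat.cast_sub hj]
  have a0 := h1 t (by omega)
  refine ⟨fun j hj => ?_, ?_, ?_, fun j hj => ?_⟩
  · have := h1 (t - j) (by omega)
    rw [e j hj]
    omega
  · have := h1 (t + 1) le_rfl
    push_cast at this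
    rw [NullP.pt_succ, neg_add'] at this
    omega
  · rw [NullP.pt_neg, show (t : ℤ) - (t + 1) = -1 by ring, pt_m1]
    omega
  · have := h2 (t - j) (by omega)
    rw [neg_add', neg_sub'] at this
    rw [e j hj, sub_neg_eq_add] at *
    omega

theorem tu_pm (b : Bool) (z : ℤ × ℤ) (t : ℕ) (f : Conf) (h : TU b (-pt b z t) t f) :
    TD b z t (pm f) := by
  obtain ⟨h1, h2, h3, h4⟩ := h
  have e : ∀ j : ℕ, j ≤ t → pt b (-pt b z t) ((t - j : ℕ) : ℤ) = -pt b z j := fun j hj => by
    rw [NullP.pt_neg, Nat.cast_sub hj, sub_sub_cancel]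
  have a0 := h1 t le_rfl
  rw [NullP.pt_neg, sub_self, pt_zero] at a0
  rw [NullP.pt_neg, show (t : ℤ) - (t + 1) = -1 by ring, pt_m1] at h3
  refine ⟨⟨fun j hj => ?_, fun j hj => ?_⟩, ?_⟩
  · simp only [pm_apply]
    rcases (by omega : j ≤ t ∨ j = t + 1) with h | rfl
    · have := h1 (t - j) (by omega)
      rw [e j h] at this
      omega
    · push_cast
      rw [NullP.pt_succ, neg_add']
      omega
  · simp only [pm_apply]
    have := h4 (t - j) (by omega)
    rw [e j hj] at this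
    rw [neg_add', neg_sub', sub_neg_eq_add]
    omega
  · simp only [pm_apply]
    omega

theorem map_pm (μ : Measure Conf) {p : Conf → Prop} (h : Measurable p) :
    μ.map pm {f | p f} = μ {f | p (pm f)} := Measure.map_apply mpm (mset h)

theorem real_pm (μ : Measure Conf) {p q : Conf → Prop} (h : Measurable p)
    (e : ∀ f, p (pm f) ↔ q f) : (μ.map pm).real {f | p f} = μ.real {f | q f} := by
  unfold Measure.real
  rw [map_pm μ h]
  simp only [e]

theorem fl_eq {μ : Measure Conf} (hμ : Gibbs μ) (hn : NoDesc μ) (b : Bool) (v : ℤ × ℤ) :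
    fl μ b (v + dir b) =
      (∑' t : ℕ, ∑' a : ℕ, μ {f | TD b (pt b v (-(a : ℤ))) (a + (t + 1)) f}).toReal := by
  have := hμ.1
  simp only [← leg_meas hμ hn]
  rw [ENNReal.tsum_toReal_eq fun _ => measure_ne_top _ _]
  rfl

theorem fl_pm {μ : Measure Conf} (hμ : Gibbs μ) (hn : NoDesc μ) (b : Bool) (z : ℤ × ℤ) :
    fl (μ.map pm) b z = fl μ b (-z + dir b) := by
  have := hμ.1
  have h := fl_eq (gibbs_pm hμ) (nodesc_pm hn) b (z - dir b)
  rw [sub_add_cancel] at h
  rw [h, fl_eq hμ hn, ENNReal.tsum_comm]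
  refine congrArg _ (tsum_congr fun a => tsum_congr fun t => ?_)
  rw [map_pm μ (mTD _ _ _)]
  have e : -pt b (pt b (z - dir b) (-(a : ℤ))) ((a + (t + 1) : ℕ) : ℤ) = pt b (-z) (-(t : ℤ)) := by
    rw [NullP.pt_pt, ← neg_pt, ← pt_m1, NullP.pt_pt]
    congr 2
    push_cast
    ring
  have e2 : {f | TD b (pt b (z - dir b) (-(a : ℤ))) (a + (t + 1)) (pm f)} =
      {f | TU b (pt b (-z) (-(t : ℤ))) (a + (t + 1)) f} := by
    ext f
    rw [← e]
    exact ⟨td_pm _ _ _ f, tu_pm _ _ _ f⟩
  have r := rev0 hμ b (pt b (-z) (-(t : ℤ))) (a + (t + 1))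
  rw [e2, show t + (a + 1) = a + (t + 1) by ring]
  exact ((ENNReal.toReal_eq_toReal_iff' (measure_ne_top _ _) (measure_ne_top _ _)).1 r).symm

theorem face {f : Conf} (hf : Hom f) (u : ℤ × ℤ) :
    ind (Val (u + dir true + dir false) f) - ind (Pk u f) =
        ind (Lo false (u + dir true) f) - ind (Lo false u f) ∧
      ind (Lo false (u + dir true) f) - ind (Lo false u f) =
        ind (Lo true (u + dir false) f) - ind (Lo true u f) := by
  have e1 : Hi true (u + dir true + dir false) f ↔ Lo true (u + dir false) f := by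
    rw [add_right_comm, hi_add]
  have e2 : Hi false (u + dir true + dir false) f ↔ Lo false (u + dir true) f := hi_add _ _ _
  have a1 := NullP.step hf true u
  have a2 := NullP.step hf false u
  have a3 := NullP.step hf false (u + dir true)
  have a4 := NullP.step hf true (u + dir false)
  rw [add_right_comm] at a4
  unfold Val Pk
  rw [e1, e2]
  unfold Lo
  rw [add_right_comm u (dir false)]
  unfold ind
  constructor <;> split_ifs <;> first | omega | norm_num

theorem face_int {μ : Measure Conf} (hμ : Gibbs μ) (u : ℤ × ℤ) :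
    μ.real {f | Val (u + dir true + dir false) f} - μ.real {f | Pk u f} =
        μ.real {f | Lo false (u + dir true) f} - μ.real {f | Lo false u f} ∧
      μ.real {f | Lo false (u + dir true) f} - μ.real {f | Lo false u f} =
        μ.real {f | Lo true (u + dir false) f} - μ.real {f | Lo true u f} := by
  have := hμ.1
  have I : ∀ {p : Conf → Prop}, Measurable p → Integrable (fun f => ind (p f)) μ := fun h =>
    Integrable.of_bound (mind h).aestronglyMeasurable 1 (ae_of_all _ fun f => ind_abs _)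
  simp only [← int_ind μ (mset (mVal _)), ← int_ind μ (mset (mPk _)), ← int_ind μ (mset (mLo _ _))]
  rw [← integral_sub (I (mVal _)) (I (mPk _)), ← integral_sub (I (mLo _ _)) (I (mLo _ _)),
    ← integral_sub (I (mLo _ _)) (I (mLo _ _))]
  exact ⟨integral_congr_ae (hμ.2.1.mono fun f hf => (face hf u).1),
    integral_congr_ae (hμ.2.1.mono fun f hf => (face hf u).2)⟩

theorem val_pm (μ : Measure Conf) (w : ℤ × ℤ) :
    (μ.map pm).real {f | Val w f} = μ.real {f | Pk (-w) f} :=
  real_pm μ (mVal w) fun f => by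
    simp only [Val, Pk, Hi, Lo, pm_apply, neg_sub', sub_neg_eq_add]
    omega

theorem lo_pm (μ : Measure Conf) (b : Bool) (w : ℤ × ℤ) :
    (μ.map pm).real {f | Lo b w f} = μ.real {f | Lo b (-w - dir b) f} :=
  real_pm μ (mLo b w) fun f => by
    simp only [Lo, pm_apply, neg_add', sub_add_cancel]
    omega

end MirP

open MirP

/-- the stream function is unique -/
theorem psi_unique {μ : Measure Conf} {Ψ Φ : ℤ × ℤ → ℝ} (h1 : IsPsi μ Ψ) (h2 : IsPsi μ Φ) :
    Ψ = Φ := by
  have s : ∀ b z, Ψ (z + dir b) - Φ (z + dir b) = Ψ z - Φ z := fun b z => by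
    have a := h1.2 z
    have c := h2.2 z
    cases b <;> linarith [a.1, a.2, c.1, c.2]
  have l : ∀ b z (t : ℤ), Ψ (pt b z t) - Φ (pt b z t) = Ψ z - Φ z := fun b z t => by
    induction t using Int.induction_on with
    | zero => rw [pt_zero]
    | succ n ih => rw [NullP.pt_succ, s, ih]
    | pred n ih =>
      rw [← ih, ← s b (pt b z (-(n : ℤ) - 1)), ← NullP.pt_succ, sub_add_cancel]
  funext z
  have a := l true 0 z.1
  have c := l false (pt true 0 z.1) z.2
  have e : pt false (pt true 0 z.1) z.2 = z := by simp [pt_true, pt_false]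
  rw [e, a, h1.1, h2.1] at c
  linarith

/-- the stream function of the point mirror -/
theorem mir_ex {μ : Measure Conf} (hμ : Gibbs μ) (hn : NoDesc μ) {Ψ : ℤ × ℤ → ℝ}
    (h : IsPsi μ Ψ) : ∃ Φ, IsPsi (μ.map pm) Φ ∧
      ∀ a b, |Φ a - Φ b + Ψ ((1, 1) - a) - Ψ ((1, 1) - b)| ≤ 2 := by
  have := hμ.1
  set B : ℤ × ℤ → ℝ := fun v => μ.real {f | Pk v f} +
    (μ.real {f | Lo false (v + dir true) f} - μ.real {f | Lo true v f}) / 2 with hB
  refine ⟨fun z => -Ψ (-z + dir true + dir false) + B (-z) -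
    (-Ψ (-0 + dir true + dir false) + B (-0)), ⟨sub_self _, fun z => ⟨?_, ?_⟩⟩, fun a b => ?_⟩
  · have a := (h.2 (-z + dir false)).1
    have f1 := face_int hμ (-z)
    rw [fl_pm hμ hn, val_pm, lo_pm]
    simp only [hB, neg_add', sub_add_cancel]
    rw [add_right_comm] at a
    linarith [f1.1, f1.2]
  · have a := (h.2 (-z + dir true)).2
    have f1 := face_int hμ (-z - dir false)
    have e1 : -z - dir false + dir true + dir false = -z + dir true := by abel
    rw [e1, sub_add_cancel] at f1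
    rw [fl_pm hμ hn, val_pm, lo_pm]
    simp only [hB, neg_add', e1]
    linarith [f1.1, f1.2]
  · have e : ∀ z : ℤ × ℤ, -z + dir true + dir false = (1, 1) - z := fun z => by
      ext <;> simp [dir] <;> ring
    have bd : ∀ v, -1 / 2 ≤ B v ∧ B v ≤ 3 / 2 := fun v => by
      simp only [hB]
      constructor <;> linarith [measureReal_nonneg (μ := μ) (s := {f | Pk v f}),
        measureReal_le_one (μ := μ) (s := {f | Pk v f}),
        measureReal_nonneg (μ := μ) (s := {f | Lo false (v + dir true) f}),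
        measureReal_le_one (μ := μ) (s := {f | Lo false (v + dir true) f}),
        measureReal_nonneg (μ := μ) (s := {f | Lo true v f}),
        measureReal_le_one (μ := μ) (s := {f | Lo true v f})]
    simp only [e]
    rw [abs_le]
    constructor <;> linarith [(bd (-a)).1, (bd (-a)).2, (bd (-b)).1, (bd (-b)).2]

/-- the same for a given stream function of the mirror -/
theorem mir {μ : Measure Conf} (hμ : Gibbs μ) (hn : NoDesc μ) {Ψ Φ : ℤ × ℤ → ℝ}
    (h : IsPsi μ Ψ) (h' : IsPsi (μ.map pm) Φ) (a b : ℤ × ℤ) :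
    |Φ a - Φ b + Ψ ((1, 1) - a) - Ψ ((1, 1) - b)| ≤ 2 := by
  obtain ⟨Φ', h1, h2⟩ := mir_ex hμ hn h
  rw [psi_unique h' h1]
  exact h2 a b

end Pool.Agent.MP_151d89_pr.H60
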